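import Pool.Agent.Helper27.AD.Stmts

/-!
(REAL) a bounded function gives `f² - N² = d y²` with `d` totally negative.
-/

set_option autoImplicit false

open scoped Classical

namespace Pool.Agent.Helper27.AD

open Pool.Agent.Helper14.BSC Pool.Agent.Helper13.ZL NumberField Pool.Agent.Helper14.BSC.Gen

theorem real_kum {k Ω : Type} [Field k] [Field Ω] [Algebra k Ω] [CharZero k] [IsAlgClosed Ω]
    (hKUM : ST_KUM) (hBOT : ST_BOT) (D : Sec k Ω) (x : LL D)
    (hx : x ≠ 0) (n : ℕ) (hn : 0 < n) :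
    ∃ c : k, c ≠ 0 ∧ ∃ g : LL D, x = algebraMap k (LL D) c * g ^ n := by
  obtain ⟨c, hc, y, hy, h⟩ := hKUM k Ω D ∅ n hn x hx
  obtain ⟨c0, hc0⟩ := hBOT k Ω (c : Acl k Ω) c.2
  have h1 : inc D ∅ c = algebraMap k (LL D) c0 := by
    apply Subtype.ext
    rw [coe_inc, hc0]
    rfl
  refine ⟨c0, ?_, y, ?_⟩
  · rintro rfl
    apply hc
    apply Subtype.ext
    rw [hc0, map_zero]
    rfl
  · rw [h, h1]

/-- a complex conjugation of `kb` above a real embedding of `k` -/
theorem real_conj (k kb : Type) [Field k] [Field kb] [Algebra k kb] [IsAlgClosure k kb]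
    (φ : k →+* ℂ) (hφ : ∀ x, (starRingEnd ℂ) (φ x) = φ x) :
    ∃ (ι : kb →+* ℂ) (τ : kb ≃ₐ[k] kb), (∀ x, ι (algebraMap k kb x) = φ x) ∧
      ∀ z, ι (τ z) = (starRingEnd ℂ) (ι z) := by
  let : Algebra k ℂ := φ.toAlgebra
  have ha : Algebra.IsAlgebraic k kb := IsAlgClosure.isAlgebraic
  let ι0 : kb →ₐ[k] ℂ := IsAlgClosed.lift
  let : Algebra kb ℂ := ι0.toRingHom.toAlgebra
  have : IsScalarTower k kb ℂ := IsScalarTower.of_algebraMap_eq fun x => (ι0.commutes x).symm
  have : Normal k kb := IsAlgClosure.normal k kb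
  let cj : ℂ ≃ₐ[k] ℂ := AlgEquiv.ofRingEquiv (f := starRingAut) (fun x => hφ x)
  refine ⟨ι0.toRingHom, cj.restrictNormal kb, fun x => ι0.commutes x, fun z => ?_⟩
  exact cj.restrictNormal_commutes kb z

theorem real_real {z : ℂ} (h : (z ^ 2).im = 0) (h2 : 0 ≤ (z ^ 2).re) :
    (starRingEnd ℂ) z = z := by
  rw [Complex.conj_eq_iff_im]
  have h3 : (z ^ 2).im = 2 * z.re * z.im := by
    rw [pow_two, Complex.mul_im]; ring
  have h4 : (z ^ 2).re = z.re ^ 2 - z.im ^ 2 := by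
    rw [pow_two, Complex.mul_re]; ring
  rw [h3] at h
  rw [h4] at h2
  rcases mul_eq_zero.1 h with h5 | h5
  · have h6 : z.re = 0 := by linarith
    rw [h6] at h2
    nlinarith [sq_nonneg z.im]
  · exact h5

/-- the fixed field of a complex conjugation: sums of two squares are squares -/
theorem real_sum {k K kb Ω : Type} [Field k] [Field K] [Field kb] [Field Ω]
    [Algebra k kb] [Algebra kb Ω] [Algebra K Ω] [IsAlgClosed Ω]
    (s : (kb ≃ₐ[k] kb) →* (Ω ≃ₐ[K] Ω)) (τ : kb ≃ₐ[k] kb) (hτ : ∀ z, τ (τ z) = z)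
    (i A B : Ω) (hi : i ^ 2 = -1) (hsi : s τ i = -i) (hA : s τ A = A) (hB : s τ B = B) :
    ∃ w : Ω, s τ w = w ∧ w ^ 2 = A ^ 2 + B ^ 2 := by
  obtain ⟨z, hz⟩ := IsAlgClosed.exists_pow_nat_eq (A + i * B) (n := 2) (by norm_num)
  have hss : ∀ x, s τ (s τ x) = x := by
    intro x
    have h1 : τ * τ = 1 := AlgEquiv.ext hτ
    have h2 : (s τ * s τ) x = x := by
      rw [← map_mul, h1, map_one]
      rfl
    exact h2
  refine ⟨z * s τ z, ?_, ?_⟩
  · rw [map_mul, hss, mul_comm]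
  · have h1 : (s τ z) ^ 2 = A - i * B := by
      rw [← map_pow, hz, map_add, map_mul, hA, hB, hsi]
      ring
    rw [mul_pow, hz, h1]
    linear_combination (- B ^ 2) * hi

theorem st_REAL (hKUM : ST_KUM) (hBOT : ST_BOT) : ST_REAL := by
  intro k K kb Ω _ _ _ _ _ _ _ _ _ _ _ _ _ _ _ s hs hreal f hf hfk hbd
  have hac : IsAlgClosed kb := IsAlgClosure.isAlgClosed k
  have : CharZero Ω := charZero_of_injective_algebraMap (algebraMap k Ω).injective
  have : CharZero kb := charZero_of_injective_algebraMap (algebraMap k kb).injective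
  -- the complex conjugations
  have hcj : ∀ φ : k →+* ℂ, ∃ (ι : kb →+* ℂ) (τ : kb ≃ₐ[k] kb),
      (∀ x, ι (algebraMap k kb x) = φ x) ∧ ∀ z, ι (τ z) = (starRingEnd ℂ) (ι z) :=
    fun φ => real_conj k kb φ (hreal φ)
  choose ι τ hι hτ using hcj
  have hB : ∀ φ : k →+* ℂ, ∃ (N : ℕ) (y : Ω), s (τ φ) y = y ∧ y ^ 2 = (N : Ω) ^ 2 - f ^ 2 :=
    fun φ => hbd (ι φ) (τ φ) (hτ φ)
  choose Nf yf hyf hyf2 using hB
  set N : ℕ := 1 + ∑ φ, Nf φ with hN
  have hle : ∀ φ, Nf φ ≤ N := by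
    intro φ
    have := Finset.single_le_sum (f := Nf) (fun _ _ => Nat.zero_le _) (Finset.mem_univ φ)
    omega
  have hfD : f ∈ LL (topD s hs) := (top_mem s hs f).2 hf
  have hne : f ^ 2 - (N : Ω) ^ 2 ≠ 0 := by
    intro h0
    have h1 : (f - N) * (f + N) = 0 := by linear_combination h0
    rcases mul_eq_zero.1 h1 with h2 | h2
    · exact hfk ⟨(N : k), by rw [map_natCast]; linear_combination -h2⟩
    · exact hfk ⟨-(N : k), by rw [map_neg, map_natCast]; linear_combination -h2⟩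
  have hx0 : ((⟨f, hfD⟩ : LL (topD s hs)) ^ 2 - (N : LL (topD s hs)) ^ 2) ≠ 0 := by
    intro h0
    apply hne
    have := congrArg (fun z : LL (topD s hs) => (z : Ω)) h0
    simpa using this
  obtain ⟨d, hd, g, hg⟩ := real_kum hKUM hBOT (topD s hs) _ hx0 2 (by norm_num)
  have hg' : f ^ 2 - (N : Ω) ^ 2 = algebraMap k Ω d * (g : Ω) ^ 2 := by
    have := congrArg (fun z : LL (topD s hs) => (z : Ω)) hg
    simpa using this
  have hgf : ∀ σ, s σ (g : Ω) = g := (top_mem s hs (g : Ω)).1 g.2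
  have hg0 : (g : Ω) ≠ 0 := by
    intro h0
    rw [h0] at hg'
    apply hne
    rw [hg']
    ring
  refine ⟨N, by omega, d, hd, fun φ => ?_, g, hg0, hgf, hg'⟩
  by_contra hneg
  push Not at hneg
  have hτ2 : ∀ z, τ φ (τ φ z) = z := by
    intro z
    apply (ι φ).injective
    rw [hτ, hτ, Complex.conj_conj]
  have hfix : ∀ z : kb, (starRingEnd ℂ) (ι φ z) = ι φ z → s (τ φ) (algebraMap kb Ω z) =
      algebraMap kb Ω z := by
    intro z hz
    rw [hs.2]
    congr 1
    apply (ι φ).injective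
    rw [hτ, hz]
  -- `i`
  obtain ⟨i0, hi0⟩ := IsAlgClosed.exists_pow_nat_eq (-1 : kb) (n := 2) (by norm_num)
  have hιi : (ι φ i0) ^ 2 = -1 := by rw [← map_pow, hi0, map_neg, map_one]
  have hi0ne : (starRingEnd ℂ) (ι φ i0) ≠ ι φ i0 := by
    intro h
    rw [Complex.conj_eq_iff_im] at h
    have h1 := congrArg Complex.re hιi
    rw [pow_two, Complex.mul_re, h] at h1
    simp only [mul_zero, sub_zero, Complex.neg_re, Complex.one_re] at h1
    nlinarith [sq_nonneg (ι φ i0).re]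
  have hti : τ φ i0 = -i0 := by
    have h1 : (τ φ i0 - i0) * (τ φ i0 + i0) = 0 := by
      have h2 : (τ φ i0) ^ 2 = -1 := by rw [← map_pow, hi0, map_neg, map_one]
      linear_combination h2 - hi0
    rcases mul_eq_zero.1 h1 with h2 | h2
    · exfalso
      apply hi0ne
      rw [← hτ, sub_eq_zero.1 h2]
    · exact eq_neg_of_add_eq_zero_left h2
  set i : Ω := algebraMap kb Ω i0 with hi
  have hi2 : i ^ 2 = -1 := by rw [hi, ← map_pow, hi0, map_neg, map_one]
  have hsi : s (τ φ) i = -i := by rw [hi, hs.2, hti, map_neg]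
  -- `N² - f²` is a square
  obtain ⟨r0, hr0⟩ := IsAlgClosed.exists_pow_nat_eq ((N ^ 2 - Nf φ ^ 2 : ℕ) : kb) (n := 2)
    (by norm_num)
  have hιr : (ι φ r0) ^ 2 = ((N ^ 2 - Nf φ ^ 2 : ℕ) : ℂ) := by rw [← map_pow, hr0, map_natCast]
  have hsr : s (τ φ) (algebraMap kb Ω r0) = algebraMap kb Ω r0 := by
    apply hfix
    apply real_real
    · rw [hιr, Complex.natCast_im]
    · rw [hιr, Complex.natCast_re]
      positivity
  obtain ⟨b, hb, hb2⟩ := real_sum s (τ φ) hτ2 i (algebraMap kb Ω r0) (yf φ) hi2 hsi hsr (hyf φ)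
  have hb3 : b ^ 2 = (N : Ω) ^ 2 - f ^ 2 := by
    have hsq : Nf φ ^ 2 ≤ N ^ 2 := Nat.pow_le_pow_left (hle φ) 2
    have h1 : (algebraMap kb Ω r0) ^ 2 = (N : Ω) ^ 2 - (Nf φ : Ω) ^ 2 := by
      rw [← map_pow, hr0, map_natCast, Nat.cast_sub hsq]
      push_cast
      ring
    rw [hb2, h1, hyf2]
    ring
  have hb0 : b ≠ 0 := by
    rintro rfl
    apply hne
    linear_combination hb3
  -- `d` is a square
  obtain ⟨e, he⟩ := IsAlgClosed.exists_pow_nat_eq (algebraMap k kb d) (n := 2) (by norm_num)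
  have hse : s (τ φ) (algebraMap kb Ω e) = algebraMap kb Ω e := by
    apply hfix
    have h1 : (ι φ e) ^ 2 = φ d := by rw [← map_pow, he, hι]
    apply real_real
    · rw [h1]
      exact Complex.conj_eq_iff_im.1 (hreal φ d)
    · rw [h1]
      exact hneg
  have he2 : (algebraMap kb Ω e) ^ 2 = algebraMap k Ω d := by
    rw [← map_pow, he, ← IsScalarTower.algebraMap_apply]
  have h1 : ((algebraMap kb Ω e * g) / b) ^ 2 = -1 := by
    rw [div_pow, mul_pow, he2, ← hg', hb3, div_eq_iff (by rw [← hb3]; exact pow_ne_zero 2 hb0)]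
    ring
  have h2 : s (τ φ) ((algebraMap kb Ω e * g) / b) = (algebraMap kb Ω e * g) / b := by
    rw [map_div₀, map_mul, hse, hgf, hb]
  set u : Ω := (algebraMap kb Ω e * g) / b with hu
  have h3 : (u - i) * (u + i) = 0 := by linear_combination h1 - hi2
  have hine : i ≠ 0 := by
    rintro h0
    rw [h0] at hi2
    norm_num at hi2
  have h4 : s (τ φ) i = i := by
    rcases mul_eq_zero.1 h3 with h5 | h5
    · rw [← sub_eq_zero.1 h5, h2]
    · have h6 : i = -u := by linear_combination h5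
      rw [h6, map_neg, h2]
  rw [hsi] at h4
  have h5 : (2 : Ω) * i = 0 := by linear_combination -h4
  rcases mul_eq_zero.1 h5 with h6 | h6
  · norm_num at h6
  · exact hine h6

end Pool.Agent.Helper27.AD
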